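import Pool.Agent.H570R2.ZamAsymp

/-!
# The zero-information Arthur-Merlin complexity of INDEX is subpolynomial

The conjecture `ZAM(INDEX_n) = Θ(n)` is false: `ZAM(INDEX_n) ≤ 2 ^ (54 √(log n · log log n))`,
which is `n ^ {o(1)}`.

`AMProtocol`, `IsZAM` and `ZAM` are defined in `Pool.Agent.H570R2.ZamDefs`.
-/

namespace Pool.Agent.Results.MP_63af43_lc.SubpolynomialIndex

open Pool.Agent.H570R2 Filter Topology

/-- `INDEX_n (x, y) = x_y` for `x ∈ {0,1}^n` and `y ∈ [n]`. -/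
def INDEX (n : ℕ) (x : Fin n → Bool) (y : Fin n) : Bool := x y

/-- The quasi-polylogarithmic bound `2 ^ (54 √(log₂ n · log₂ log₂ n))`. -/
noncomputable def bound (n : ℕ) : ℝ :=
  (2 : ℝ) ^ (54 * Real.sqrt (Real.logb 2 n * Real.logb 2 (Real.logb 2 n)))

theorem upper (n : ℕ) (hn : 4 ≤ n) : ZAM (INDEX n) ≤ ((⌊bound n⌋₊ : ℕ) : ℕ∞) :=
  ZAM_le_of_card_le (INDEX n) n hn (by simp)

theorem bound_le_rpow (ε : ℝ) (hε : 0 < ε) : ∀ᶠ n : ℕ in atTop, bound n ≤ (n : ℝ) ^ ε := by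
  have h1 := eventually_sqrt_le 54 ε (by norm_num) hε
  have hlog : Tendsto (fun n : ℕ => Real.logb 2 (n : ℝ)) atTop atTop :=
    (Real.tendsto_logb_atTop (by norm_num)).comp tendsto_natCast_atTop_atTop
  filter_upwards [hlog.eventually h1, eventually_ge_atTop 1] with n hn hn1
  have hn0 : (0 : ℝ) < n := by exact_mod_cast hn1
  have h2 : (n : ℝ) ^ ε = (2 : ℝ) ^ (ε * Real.logb 2 n) := by
    rw [mul_comm, Real.rpow_mul (by norm_num), Real.rpow_logb (by norm_num) (by norm_num) hn0]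
  rw [h2]
  exact Real.rpow_le_rpow_of_exponent_le (by norm_num) hn

/-- The order of growth of `ZAM(INDEX_n)` is subpolynomial:
(1) `ZAM(INDEX_n) ≤ 2 ^ (54 √(log₂ n · log₂ log₂ n))` for all `n ≥ 4`;
(2) hence `ZAM(INDEX_n) ≤ n ^ ε` for every `ε > 0` and all large `n`;
(3) hence `ZAM(INDEX_n) / n → 0`, so `ZAM(INDEX_n) = Θ(n)` is false. -/
theorem result :
    (∀ n : ℕ, 4 ≤ n → ZAM (INDEX n) ≤
      ((⌊(2 : ℝ) ^ (54 * Real.sqrt (Real.logb 2 n * Real.logb 2 (Real.logb 2 n)))⌋₊ : ℕ) : ℕ∞)) ∧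
    (∀ ε : ℝ, 0 < ε → ∀ᶠ n : ℕ in atTop, ZAM (INDEX n) ≤ ((⌊(n : ℝ) ^ ε⌋₊ : ℕ) : ℕ∞)) ∧
    Tendsto (fun n : ℕ => ((ZAM (INDEX n) : ℕ∞) : ENNReal) / (n : ENNReal)) atTop (𝓝 0) := by
  have h2 : ∀ ε : ℝ, 0 < ε →
      ∀ᶠ n : ℕ in atTop, ZAM (INDEX n) ≤ ((⌊(n : ℝ) ^ ε⌋₊ : ℕ) : ℕ∞) := by
    intro ε hε
    filter_upwards [bound_le_rpow ε hε, eventually_ge_atTop 4] with n hn hn4
    exact (upper n hn4).trans (by exact_mod_cast Nat.floor_le_floor hn)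
  refine ⟨upper, h2, ?_⟩
  have hmaj : Tendsto (fun n : ℕ => ENNReal.ofReal ((n : ℝ) ^ (-(1 / 2) : ℝ))) atTop (𝓝 0) := by
    rw [← ENNReal.ofReal_zero]
    exact (ENNReal.continuous_ofReal.tendsto 0).comp
      ((tendsto_rpow_neg_atTop (by norm_num)).comp tendsto_natCast_atTop_atTop)
  refine tendsto_of_tendsto_of_tendsto_of_le_of_le' tendsto_const_nhds hmaj
    (Eventually.of_forall fun n => bot_le) ?_
  filter_upwards [h2 (1 / 2) (by norm_num), eventually_ge_atTop 1] with n hn hn1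
  have hn0 : (0 : ℝ) < n := by exact_mod_cast hn1
  have h3 : ((ZAM (INDEX n) : ℕ∞) : ENNReal) ≤ ENNReal.ofReal ((n : ℝ) ^ (1 / 2 : ℝ)) := by
    have h4 := ENat.toENNReal_le.2 hn
    refine h4.trans ?_
    rw [ENat.toENNReal_coe, ← ENNReal.ofReal_natCast]
    exact ENNReal.ofReal_le_ofReal (Nat.floor_le (by positivity))
  calc ((ZAM (INDEX n) : ℕ∞) : ENNReal) / (n : ENNReal)
      ≤ ENNReal.ofReal ((n : ℝ) ^ (1 / 2 : ℝ)) / (n : ENNReal) := by gcongr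
    _ = ENNReal.ofReal ((n : ℝ) ^ (1 / 2 : ℝ) / n) := by
        rw [← ENNReal.ofReal_natCast, ENNReal.ofReal_div_of_pos hn0]
    _ = ENNReal.ofReal ((n : ℝ) ^ (-(1 / 2) : ℝ)) := by
        congr 1
        rw [div_eq_iff hn0.ne']
        nth_rewrite 3 [← Real.rpow_one (n : ℝ)]
        rw [← Real.rpow_add hn0]
        norm_num

end Pool.Agent.Results.MP_63af43_lc.SubpolynomialIndex
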